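import Pool.Agent.W488.IW.Stm

/-! Project IW, part CHAIN: derivative of the functional along a curve. -/

set_option autoImplicit false

namespace Pool.Agent.W411.IW.Chain

open Pool.Agent.W488.IW
open MeasureTheory Set Filter Topology

lemma continuous_ek (k : Idx) : Continuous (ek k) := by
  unfold ek
  fun_prop

lemma contOn_tp {Λ : Finset Idx} {w : Idx → ℂ} {c : ℝ → Idx → ℂ} {T : ℝ}
    (hc : ∀ k ∈ Λ, ContinuousOn (fun t => c t k) (Icc 0 T)) (C : Set V) :
    ContinuousOn (fun z : V × ℝ => tp Λ w (c z.2) z.1) (C ×ˢ Icc 0 T) := by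
  unfold tp
  refine continuousOn_finsetSum _ fun k hk => ?_
  refine ContinuousOn.mul (ContinuousOn.mul continuousOn_const ?_) ?_
  · exact (hc k hk).comp continuousOn_snd (fun z hz => hz.2)
  · exact ((continuous_ek k).comp continuous_fst).continuousOn

lemma contOn_gd {Λ : Finset Idx} {c : ℝ → Idx → ℂ} {T : ℝ}
    (hc : ∀ k ∈ Λ, ContinuousOn (fun t => c t k) (Icc 0 T)) (C : Set V) :
    ContinuousOn (fun z : V × ℝ => gd Λ (c z.2) z.1) (C ×ˢ Icc 0 T) :=
  (contOn_tp hc C).prodMk (contOn_tp hc C)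

lemma contOn_main {w : ℂ × ℂ → ℝ} (hw : ContDiff ℝ 2 w) {Λ : Finset Idx} {c c' : ℝ → Idx → ℂ}
    {T : ℝ} (hc : ∀ k ∈ Λ, ContinuousOn (fun t => c t k) (Icc 0 T))
    (hc' : ∀ k ∈ Λ, ContinuousOn (fun t => c' t k) (Icc 0 T)) (C : Set V) :
    ContinuousOn (fun z : V × ℝ => fderiv ℝ w (gd Λ (c z.2) z.1) (gd Λ (c' z.2) z.1))
      (C ×ˢ Icc 0 T) := by
  have h : Continuous (fderiv ℝ w) := hw.continuous_fderiv (by simp)
  exact (h.comp_continuousOn (contOn_gd hc C)).clm_apply (contOn_gd hc' C)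

lemma hasDeriv_tp {Λ : Finset Idx} {w : Idx → ℂ} {c c' : ℝ → Idx → ℂ} {s : Set ℝ} {t : ℝ}
    (hc : ∀ k ∈ Λ, HasDerivWithinAt (fun t => c t k) (c' t k) s t) (x : V) :
    HasDerivWithinAt (fun t => tp Λ w (c t) x) (tp Λ w (c' t) x) s t := by
  unfold tp
  refine HasDerivWithinAt.fun_sum fun k hk => ?_
  exact ((hc k hk).const_mul (w k)).mul_const (ek k x)

lemma hasDeriv_gd {Λ : Finset Idx} {c c' : ℝ → Idx → ℂ} {s : Set ℝ} {t : ℝ}
    (hc : ∀ k ∈ Λ, HasDerivWithinAt (fun t => c t k) (c' t k) s t) (x : V) :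
    HasDerivWithinAt (fun t => gd Λ (c t) x) (gd Λ (c' t) x) s t :=
  (hasDeriv_tp hc x).prodMk (hasDeriv_tp hc x)

lemma hasDeriv_w {w : ℂ × ℂ → ℝ} (hw : ContDiff ℝ 2 w) {Λ : Finset Idx} {c c' : ℝ → Idx → ℂ}
    {s : Set ℝ} {t : ℝ} (hc : ∀ k ∈ Λ, HasDerivWithinAt (fun t => c t k) (c' t k) s t) (x : V) :
    HasDerivWithinAt (fun t => w (gd Λ (c t) x)) (fderiv ℝ w (gd Λ (c t) x) (gd Λ (c' t) x))
      s t := by
  have h : HasFDerivAt w (fderiv ℝ w (gd Λ (c t) x)) (gd Λ (c t) x) :=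
    (hw.differentiable (by simp) _).hasFDerivAt
  exact h.comp_hasDerivWithinAt t (hasDeriv_gd hc x)

theorem main (hI : S_IBP) : S_CHAIN := by
  intro w hw N T c c' hT hd hc'
  have hc : ∀ k ∈ box N, ContinuousOn (fun t => c t k) (Icc 0 T) := fun k hk t ht =>
    (hd k hk t ht).continuousWithinAt
  -- the right hand side
  have e1 : ∀ t : ℝ, ∫ x in Icc (0 : V) 1, DIV w (gd (box N) (c t) x) (pp (box N) (c t) x)
        (qq (box N) (c t) x) (rr (box N) (c t) x) (tp (box N) (fun _ => 1) (c' t) x)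
      = - ∫ x in Icc (0 : V) 1, fderiv ℝ w (gd (box N) (c t) x) (gd (box N) (c' t) x) := by
    intro t
    rw [hI w hw (box N) (c t) (c' t), neg_neg]
  simp_rw [e1]
  rw [intervalIntegral.integral_neg, neg_neg]
  -- the left hand side
  have e2 : ∀ x : V, w (gd (box N) (c T) x) - w (gd (box N) (c 0) x)
      = ∫ t in Icc (0 : ℝ) T, fderiv ℝ w (gd (box N) (c t) x) (gd (box N) (c' t) x) := by
    intro x
    rw [integral_Icc_eq_integral_Ioc, ← intervalIntegral.integral_of_le hT.le]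
    have hcx : ContinuousOn (fun t : ℝ => fderiv ℝ w (gd (box N) (c t) x) (gd (box N) (c' t) x))
        (Icc 0 T) := by
      have h := contOn_main hw hc hc' ({x} : Set V)
      exact h.comp (f := fun t : ℝ => ((x, t) : V × ℝ)) (by fun_prop)
        (fun t ht => ⟨rfl, ht⟩)
    symm
    refine intervalIntegral.integral_eq_sub_of_hasDerivAt_of_le
      (f := fun t => w (gd (box N) (c t) x)) hT.le ?_ ?_ ?_
    · exact fun t ht => (hasDeriv_w hw (fun k hk => hd k hk t ht) x).continuousWithinAt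
    · intro t ht
      exact (hasDeriv_w hw (fun k hk => hd k hk t (Ioo_subset_Icc_self ht)) x).hasDerivAt
        (Icc_mem_nhds ht.1 ht.2)
    · exact ContinuousOn.intervalIntegrable_of_Icc hT.le hcx
  have iw : ∀ t ∈ Icc (0 : ℝ) T,
      IntegrableOn (fun x => w (gd (box N) (c t) x)) (Icc (0 : V) 1) := by
    intro t _
    have h1 : Continuous (fun x => gd (box N) (c t) x) := by
      unfold gd tp
      refine Continuous.prodMk ?_ ?_ <;>
      exact continuous_finsetSum _ fun k _ => continuous_const.mul (continuous_ek k)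
    exact (hw.continuous.comp h1).integrableOn_Icc
  rw [← integral_sub (iw T ⟨hT.le, le_rfl⟩) (iw 0 ⟨le_rfl, hT.le⟩)]
  simp_rw [e2]
  rw [intervalIntegral.integral_of_le hT.le, ← integral_Icc_eq_integral_Ioc]
  refine integral_integral_swap (f := fun (x : V) (t : ℝ) =>
    fderiv ℝ w (gd (box N) (c t) x) (gd (box N) (c' t) x)) ?_
  have h := contOn_main hw hc hc' (Icc (0 : V) 1)
  have h2 : IntegrableOn (fun z : V × ℝ => fderiv ℝ w (gd (box N) (c z.2) z.1)
      (gd (box N) (c' z.2) z.1)) (Icc (0 : V) 1 ×ˢ Icc (0 : ℝ) T)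
      ((volume : Measure V).prod (volume : Measure ℝ)) :=
    h.integrableOn_compact (isCompact_Icc.prod isCompact_Icc)
  rw [IntegrableOn, ← Measure.prod_restrict] at h2
  exact h2

end Pool.Agent.W411.IW.Chain
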