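import Pool.Agent.W488.IW.Stm

/-! Project IW, part IW: the sharp inequality from the functional and the pointwise inequality. -/

set_option autoImplicit false

namespace Pool.Agent.W411.IW.Iw

open Pool.Agent.W488.IW
open MeasureTheory Set Filter Topology

lemma continuous_dz {f : ℂ → ℂ} (hf : ContDiff ℝ 1 f) : Continuous (dz f) := by
  have h : Continuous (fderiv ℝ f) := hf.continuous_fderiv (by simp)
  unfold dz
  exact continuous_const.mul ((h.clm_apply continuous_const).sub
    (continuous_const.mul (h.clm_apply continuous_const)))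

lemma continuous_dzb {f : ℂ → ℂ} (hf : ContDiff ℝ 1 f) : Continuous (dzb f) := by
  have h : Continuous (fderiv ℝ f) := hf.continuous_fderiv (by simp)
  unfold dzb
  exact continuous_const.mul ((h.clm_apply continuous_const).add
    (continuous_const.mul (h.clm_apply continuous_const)))

lemma supp_dz {f : ℂ → ℂ} (hs : HasCompactSupport f) : HasCompactSupport (dz f) := by
  have h := hs.fderiv (𝕜 := ℝ)
  refine h.mono ?_
  intro x hx
  simp only [Function.mem_support] at hx ⊢
  intro h0
  exact hx (by simp [dz, h0])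

lemma supp_dzb {f : ℂ → ℂ} (hs : HasCompactSupport f) : HasCompactSupport (dzb f) := by
  have h := hs.fderiv (𝕜 := ℝ)
  refine h.mono ?_
  intro x hx
  simp only [Function.mem_support] at hx ⊢
  intro h0
  exact hx (by simp [dzb, h0])

lemma integrable_norm_rpow {g : ℂ → ℂ} (hg : Continuous g) (hs : HasCompactSupport g) {p : ℝ}
    (hp : 0 < p) : Integrable (fun z => ‖g z‖ ^ p) := by
  refine Continuous.integrable_of_hasCompactSupport ?_ ?_
  · exact hg.norm.rpow_const (fun _ => Or.inr hp.le)
  · refine hs.mono ?_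
    intro x hx
    simp only [Function.mem_support] at hx ⊢
    intro h0
    exact hx (by simp [h0, Real.zero_rpow hp.ne'])

lemma continuous_Wp {p : ℝ} (hp : 2 < p) :
    Continuous (fun F : ℂ × ℂ => Wp p ‖F.1‖ ‖F.2‖) := by
  unfold Wp
  have h1 : Continuous (fun F : ℂ × ℂ => ‖F.1‖) := continuous_fst.norm
  have h2 : Continuous (fun F : ℂ × ℂ => ‖F.2‖) := continuous_snd.norm
  refine ((((continuous_const.mul h1).sub h2).mul
    ((h1.add h2).rpow_const (fun _ => Or.inr (by linarith)))).add
    (continuous_const.mul (((h1.sub h2).max continuous_const).rpow_const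
      (fun _ => Or.inr (by linarith)))))

theorem main (p0 : ℝ) (h2 : 2 < p0) (hQ : S_QP) (hPL : S_PLANE) (hPT : S_PTW p0) : S_IW p0 := by
  intro p hp f hf hs
  have hp2 : 2 < p := lt_of_lt_of_le h2 hp
  have hp0 : 0 < p := by linarith
  have hw0 : (fun F : ℂ × ℂ => Wp p ‖F.1‖ ‖F.2‖) 0 = 0 := by
    simp [Wp, Real.zero_rpow hp0.ne', Real.zero_rpow (show p - 1 ≠ 0 by linarith)]
  have hpos : 0 ≤ ∫ z : ℂ, Wp p ‖dz f z‖ ‖dzb f z‖ :=
    hPL (fun F : ℂ × ℂ => Wp p ‖F.1‖ ‖F.2‖) (continuous_Wp hp2) hw0 (hQ p hp2) f hf hs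
  set c : ℝ := p * (1 - 1 / p) ^ (p - 1) with hc
  have hc0 : 0 ≤ c := by
    apply mul_nonneg hp0.le
    apply Real.rpow_nonneg
    have : 1 / p ≤ 1 := by
      rw [div_le_one hp0]; linarith
    linarith
  have hi1 : Integrable (fun z => ‖dz f z‖ ^ p) :=
    integrable_norm_rpow (continuous_dz hf) (supp_dz hs) hp0
  have hi2 : Integrable (fun z => ‖dzb f z‖ ^ p) :=
    integrable_norm_rpow (continuous_dzb hf) (supp_dzb hs) hp0
  have hiW : Integrable (fun z => Wp p ‖dz f z‖ ‖dzb f z‖) := by
    refine Continuous.integrable_of_hasCompactSupport ?_ ?_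
    · exact (continuous_Wp hp2).comp ((continuous_dz hf).prodMk (continuous_dzb hf))
    · have h := hs.fderiv (𝕜 := ℝ)
      refine h.mono ?_
      intro x hx
      simp only [Function.mem_support] at hx ⊢
      intro h0
      apply hx
      have e1 : dz f x = 0 := by simp [dz, h0]
      have e2 : dzb f x = 0 := by simp [dzb, h0]
      rw [e1, e2]
      simpa using hw0
  have hle : ∫ z : ℂ, c * Wp p ‖dz f z‖ ‖dzb f z‖ ≤
      ∫ z : ℂ, ((p - 1) ^ p * ‖dz f z‖ ^ p - ‖dzb f z‖ ^ p) := by
    refine integral_mono (hiW.const_mul c) ((hi1.const_mul _).sub hi2) ?_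
    intro z
    exact hPT p ‖dz f z‖ ‖dzb f z‖ hp (norm_nonneg _) (norm_nonneg _)
  rw [integral_const_mul, integral_sub (hi1.const_mul _) hi2, integral_const_mul] at hle
  have := mul_nonneg hc0 hpos
  linarith

end Pool.Agent.W411.IW.Iw
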