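import Pool.Agent.W488.IW.Stm

/-! Project IW, part PARS: Parseval for trigonometric polynomials on the cube. -/

set_option autoImplicit false

namespace Pool.Agent.W411.IW.Pars

open Pool.Agent.W488.IW
open MeasureTheory Set Filter Topology

/-- one dimensional exponentials -/
noncomputable def e1 (m : ℤ) (t : ℝ) : ℂ := Complex.exp (2 * Real.pi * m * t * Complex.I)

lemma integral_e1 (m : ℤ) : ∫ t in Icc (0 : ℝ) 1, e1 m t = if m = 0 then 1 else 0 := by
  rw [integral_Icc_eq_integral_Ioc, ← intervalIntegral.integral_of_le zero_le_one]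
  split_ifs with h
  · subst h
    simp [e1]
  · have hc : (2 * Real.pi * m * Complex.I : ℂ) ≠ 0 := by
      have : (m : ℂ) ≠ 0 := by exact_mod_cast h
      simp [this, Real.pi_ne_zero, Complex.I_ne_zero]
    have h1 : ∀ t : ℝ, e1 m t = Complex.exp ((2 * Real.pi * m * Complex.I) * t) := by
      intro t
      unfold e1
      congr 1
      ring
    simp_rw [h1]
    rw [integral_exp_mul_complex hc]
    have h2 : Complex.exp (2 * Real.pi * m * Complex.I * ((1 : ℝ) : ℂ)) = 1 := by
      rw [Complex.exp_eq_one_iff]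
      exact ⟨m, by push_cast; ring⟩
    rw [h2]
    simp

lemma integral_prod (f : Fin 2 → ℝ → ℂ) :
    ∫ x in Icc (0 : V) 1, ∏ i, f i (x i) = ∏ i, ∫ t in Icc (0 : ℝ) 1, f i t := by
  have h1 : (volume : Measure V).restrict (Icc (0 : V) 1)
      = Measure.pi (fun _ : Fin 2 => (volume : Measure ℝ).restrict (Icc (0 : ℝ) 1)) := by
    have h0 : Icc (0 : V) 1 = Set.pi univ (fun _ : Fin 2 => Icc (0 : ℝ) 1) :=
      (Set.pi_univ_Icc (0 : V) 1).symm
    rw [h0, volume_pi]
    exact Measure.restrict_pi_pi _ _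
  rw [h1]
  exact integral_fintype_prod_eq_prod (f := f)

lemma conj_ek_mul_ek (k l : Idx) (x : V) :
    (starRingEnd ℂ) (ek k x) * ek l x = ∏ i, (![e1 (l.1 - k.1), e1 (l.2 - k.2)] i) (x i) := by
  rw [Fin.prod_univ_two]
  simp only [Matrix.cons_val_zero, Matrix.cons_val_one]
  unfold ek e1
  rw [← Complex.exp_conj, ← Complex.exp_add, ← Complex.exp_add]
  congr 1
  simp only [map_mul, map_add, Complex.conj_ofReal, Complex.conj_I, map_ofNat, map_intCast]
  push_cast
  ring

lemma orth (k l : Idx) :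
    ∫ x in Icc (0 : V) 1, (starRingEnd ℂ) (ek k x) * ek l x = if k = l then 1 else 0 := by
  simp_rw [conj_ek_mul_ek]
  rw [integral_prod (fun i => ![e1 (l.1 - k.1), e1 (l.2 - k.2)] i), Fin.prod_univ_two]
  simp only [Matrix.cons_val_zero, Matrix.cons_val_one]
  rw [integral_e1, integral_e1]
  by_cases h : k = l
  · subst h
    simp
  · rw [if_neg h]
    by_cases h1 : l.1 - k.1 = 0
    · have h2 : l.2 - k.2 ≠ 0 := by
        intro h2
        apply h
        exact Prod.ext (by omega) (by omega)
      rw [if_neg h2, mul_zero]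
    · rw [if_neg h1, zero_mul]

lemma continuous_ek (k : Idx) : Continuous (ek k) := by
  unfold ek
  fun_prop

theorem main : S_PARS := by
  intro Λ w c
  have hint : ∀ k l : Idx, IntegrableOn (fun x => ((starRingEnd ℂ) (w k * c k) * (w l * c l)) *
      ((starRingEnd ℂ) (ek k x) * ek l x)) (Icc (0 : V) 1) := fun k l =>
    (continuous_const.mul ((Complex.continuous_conj.comp (continuous_ek k)).mul
      (continuous_ek l))).integrableOn_Icc
  have h : ((∫ x in Icc (0 : V) 1, ‖tp Λ w c x‖ ^ 2 : ℝ) : ℂ)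
      = ((∑ k ∈ Λ, ‖w k * c k‖ ^ 2 : ℝ) : ℂ) := by
    rw [← integral_complex_ofReal]
    have h1 : ∀ x : V, ((‖tp Λ w c x‖ ^ 2 : ℝ) : ℂ) = ∑ k ∈ Λ, ∑ l ∈ Λ,
        ((starRingEnd ℂ) (w k * c k) * (w l * c l)) * ((starRingEnd ℂ) (ek k x) * ek l x) := by
      intro x
      push_cast
      rw [← Complex.conj_mul']
      unfold tp
      rw [map_sum, Finset.sum_mul_sum]
      refine Finset.sum_congr rfl fun k _ => Finset.sum_congr rfl fun l _ => ?_
      simp only [map_mul]
      ring
    simp_rw [h1]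
    rw [integral_finsetSum _ (fun k _ => integrable_finsetSum _ (fun l _ => hint k l))]
    push_cast
    refine Finset.sum_congr rfl fun k hk => ?_
    rw [integral_finsetSum _ (fun l _ => hint k l)]
    rw [Finset.sum_eq_single k]
    · rw [integral_const_mul, orth, if_pos rfl, mul_one, Complex.conj_mul']
    · intro l _ hl
      rw [integral_const_mul, orth, if_neg (Ne.symm hl), mul_zero]
    · intro hk'
      exact absurd hk hk'
  exact_mod_cast h

end Pool.Agent.W411.IW.Pars
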