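import Pool.Agent.W488.IW.Stm

/-! Project IW, part QT: positivity for the regularised functional. -/

set_option autoImplicit false

namespace Pool.Agent.W411.IW.Qt

open Pool.Agent.W488.IW
open MeasureTheory Set Filter Topology

lemma continuous_ek (k : Idx) : Continuous (ek k) := by
  unfold ek
  fun_prop

lemma continuous_tp (Λ : Finset Idx) (w c : Idx → ℂ) : Continuous (tp Λ w c) := by
  unfold tp
  exact continuous_finsetSum _ fun k _ => continuous_const.mul (continuous_ek k)

lemma continuous_gd (Λ : Finset Idx) (c : Idx → ℂ) : Continuous (gd Λ c) :=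
  (continuous_tp Λ ka c).prodMk (continuous_tp Λ kb c)

lemma continuous_pp (Λ : Finset Idx) (c : Idx → ℂ) : Continuous (pp Λ c) := continuous_tp _ _ _
lemma continuous_qq (Λ : Finset Idx) (c : Idx → ℂ) : Continuous (qq Λ c) := continuous_tp _ _ _
lemma continuous_rr (Λ : Finset Idx) (c : Idx → ℂ) : Continuous (rr Λ c) := continuous_tp _ _ _

lemma XX_pos {ε : ℝ} (hε : 0 < ε) (a : ℂ) : 0 < XX ε a := by
  unfold XX
  apply Real.sqrt_pos.mpr
  positivity

lemma continuous_XX (ε : ℝ) : Continuous (XX ε) := by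
  unfold XX
  fun_prop

lemma continuous_ss {ε : ℝ} (hε : 0 < ε) : Continuous (ss ε) := by
  unfold ss
  refine Continuous.div ?_ ?_ ?_
  · exact (Complex.continuous_conj.comp continuous_fst).mul continuous_snd
  · exact Complex.continuous_ofReal.comp (((continuous_XX ε).comp continuous_fst).mul
      ((continuous_XX ε).comp continuous_snd))
  · intro F
    have := mul_pos (XX_pos hε F.1) (XX_pos hε F.2)
    exact_mod_cast this.ne'

lemma continuous_Vp {ε : ℝ} (hε : 0 < ε) (n : ℝ) (Λ : Finset Idx) (c : Idx → ℂ) :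
    Continuous (Vp ε n Λ c) := by
  unfold Vp Vv
  have h1 : Continuous (fun x => ss ε (gd Λ c x)) := (continuous_ss hε).comp (continuous_gd Λ c)
  exact ((continuous_const.mul (continuous_qq Λ c)).add (h1.mul (continuous_pp Λ c))).add
    ((Complex.continuous_conj.comp h1).mul (continuous_rr Λ c))

lemma continuous_DIV {w : ℂ × ℂ → ℝ} (hw : ContDiff ℝ 2 w) {X : Type*} [TopologicalSpace X]
    {F : X → ℂ × ℂ} {p q r φ : X → ℂ} (hF : Continuous F) (hp : Continuous p) (hq : Continuous q)
    (hr : Continuous r) (hφ : Continuous φ) :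
    Continuous (fun x => DIV w (F x) (p x) (q x) (r x) (φ x)) := by
  have h1 : ContDiff ℝ 1 (fderiv ℝ w) := hw.fderiv_right (by norm_num)
  have h2 : Continuous (fderiv ℝ (fderiv ℝ w)) := h1.continuous_fderiv (by simp)
  have h3 : Continuous (fun x => fderiv ℝ (fderiv ℝ w) (F x)) := h2.comp hF
  unfold DIV
  refine Continuous.add ?_ ?_
  · exact (h3.clm_apply ((hp.add hq).prodMk (hq.add hr))).clm_apply
      ((hφ.div_const 2).prodMk (hφ.div_const 2))
  · exact (h3.clm_apply ((continuous_const.mul (hp.sub hq)).prodMk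
      (continuous_const.mul (hq.sub hr)))).clm_apply
      ((((continuous_const.mul hφ).div_const 2).neg).prodMk
        ((continuous_const.mul hφ).div_const 2))

lemma continuous_OMa {e : ℂ × ℂ → ℝ} (he : ContDiff ℝ 1 e) {X : Type*} [TopologicalSpace X]
    {F : X → ℂ × ℂ} {p q r : X → ℂ} (hF : Continuous F) (hp : Continuous p) (hq : Continuous q)
    (hr : Continuous r) :
    Continuous (fun x => OMa e (F x) (p x) (q x) (r x)) := by
  have h2 : Continuous (fderiv ℝ e) := he.continuous_fderiv (by simp)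
  have h3 : Continuous (fun x => fderiv ℝ e (F x)) := h2.comp hF
  have h4 : Continuous (fun x => e (F x)) := he.continuous.comp hF
  have h5 : Continuous (fun x => (starRingEnd ℂ) (F x).1) :=
    Complex.continuous_conj.comp (continuous_fst.comp hF)
  unfold OMa
  refine ((Continuous.mul ?_ ?_).sub (Continuous.mul ?_ ?_)).add (Continuous.mul ?_ ?_)
  · exact h3.clm_apply ((hp.add hq).prodMk (hq.add hr))
  · exact Complex.continuous_im.comp (h5.mul (continuous_const.mul (hp.sub hq)))
  · exact h3.clm_apply ((continuous_const.mul (hp.sub hq)).prodMk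
      (continuous_const.mul (hq.sub hr)))
  · exact Complex.continuous_im.comp (h5.mul (hp.add hq))
  · exact continuous_const.mul h4
  · exact (hp.norm.pow 2).sub (hq.norm.pow 2)

lemma continuous_OMb {e : ℂ × ℂ → ℝ} (he : ContDiff ℝ 1 e) {X : Type*} [TopologicalSpace X]
    {F : X → ℂ × ℂ} {p q r : X → ℂ} (hF : Continuous F) (hp : Continuous p) (hq : Continuous q)
    (hr : Continuous r) :
    Continuous (fun x => OMb e (F x) (p x) (q x) (r x)) := by
  have h2 : Continuous (fderiv ℝ e) := he.continuous_fderiv (by simp)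
  have h3 : Continuous (fun x => fderiv ℝ e (F x)) := h2.comp hF
  have h4 : Continuous (fun x => e (F x)) := he.continuous.comp hF
  have h5 : Continuous (fun x => (starRingEnd ℂ) (F x).2) :=
    Complex.continuous_conj.comp (continuous_snd.comp hF)
  unfold OMb
  refine ((Continuous.mul ?_ ?_).sub (Continuous.mul ?_ ?_)).add (Continuous.mul ?_ ?_)
  · exact h3.clm_apply ((hp.add hq).prodMk (hq.add hr))
  · exact Complex.continuous_im.comp (h5.mul (continuous_const.mul (hq.sub hr)))
  · exact h3.clm_apply ((continuous_const.mul (hp.sub hq)).prodMk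
      (continuous_const.mul (hq.sub hr)))
  · exact Complex.continuous_im.comp (h5.mul (hq.add hr))
  · exact continuous_const.mul h4
  · exact (hq.norm.pow 2).sub (hr.norm.pow 2)

lemma int3 {f g h : V → ℝ} {S : Set V} (hf : IntegrableOn f S) (hg : IntegrableOn g S)
    (hh : IntegrableOn h S) :
    ∫ x in S, (2 * f x + g x + h x) = 2 * (∫ x in S, f x) + (∫ x in S, g x) + ∫ x in S, h x := by
  have h2 : IntegrableOn (fun x => 2 * f x) S := hf.const_mul 2
  have h3 : IntegrableOn (fun x => 2 * f x + g x) S := h2.add hg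
  rw [integral_add h3 hh, integral_add h2 hg, integral_const_mul]

theorem main (h1 : S_PC) (h2 : S_REG) (h3 : S_NULL) (h4 : S_FLOW) : S_QT := by
  intro κ hκ ϑ hϑ ε0 hε0
  obtain ⟨δ, hδ, ε1, hε1, H⟩ := h1 κ hκ ϑ hϑ
  obtain ⟨ε, hε, hlt⟩ : ∃ ε : ℝ, 0 < ε ∧ ε < min (min ε0 ε1) (1 / 8) :=
    exists_between (by positivity)
  have hlt0 : ε < ε0 := lt_of_lt_of_le hlt ((min_le_left _ _).trans (min_le_left _ _))
  have hlt1 : ε < ε1 := lt_of_lt_of_le hlt ((min_le_left _ _).trans (min_le_right _ _))
  have hlt8 : ε < 1 / 8 := lt_of_lt_of_le hlt (min_le_right _ _)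
  obtain ⟨hw, hK, hw0, hf0, he, hg⟩ := h2 κ hκ ε ϑ hε hlt8
  refine ⟨ε, hε, hlt0, h4 ε (2 + 4 * δ) hε (by linarith) (wT κ ε ϑ) hw hK hw0 hf0 ?_⟩
  intro N c
  have hn := h3 (eT κ ε ϑ) he (box N) c
  have hn' := h3 (gT κ ε ϑ) hg (box N) c
  have cg := continuous_gd (box N) c
  have cp := continuous_pp (box N) c
  have cq := continuous_qq (box N) c
  have cr := continuous_rr (box N) c
  have cV := continuous_Vp hε (2 + 4 * δ) (box N) c
  have i1 : IntegrableOn (fun x => DIV (wT κ ε ϑ) (gd (box N) c x) (pp (box N) c x)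
      (qq (box N) c x) (rr (box N) c x) (Vp ε (2 + 4 * δ) (box N) c x)) (Icc (0 : V) 1) :=
    (continuous_DIV hw cg cp cq cr cV).integrableOn_Icc
  have i2 : IntegrableOn (fun x => OMa (eT κ ε ϑ) (gd (box N) c x) (pp (box N) c x)
      (qq (box N) c x) (rr (box N) c x)) (Icc (0 : V) 1) :=
    (continuous_OMa he cg cp cq cr).integrableOn_Icc
  have i3 : IntegrableOn (fun x => OMb (gT κ ε ϑ) (gd (box N) c x) (pp (box N) c x)
      (qq (box N) c x) (rr (box N) c x)) (Icc (0 : V) 1) :=
    (continuous_OMb hg cg cp cq cr).integrableOn_Icc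
  have key : 0 ≤ ∫ x in Icc (0 : V) 1, (2 * DIV (wT κ ε ϑ) (gd (box N) c x) (pp (box N) c x)
      (qq (box N) c x) (rr (box N) c x) (Vp ε (2 + 4 * δ) (box N) c x)
      + OMa (eT κ ε ϑ) (gd (box N) c x) (pp (box N) c x) (qq (box N) c x) (rr (box N) c x)
      + OMb (gT κ ε ϑ) (gd (box N) c x) (pp (box N) c x) (qq (box N) c x) (rr (box N) c x)) := by
    refine integral_nonneg ?_
    intro x
    exact H ε hε hlt1 (gd (box N) c x) (pp (box N) c x) (qq (box N) c x) (rr (box N) c x)
  rw [int3 i1 i2 i3, hn.1, hn'.2] at key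
  linarith

end Pool.Agent.W411.IW.Qt
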